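import Pool.Agent.H29.BH.Targets3
import Pool.Agent.H59.BH.GS

/-!
R_G1: the first moment of the weighted number of points
-/

set_option autoImplicit false

open NumberField NumberField.InfinitePlace NumberField.Units
  NumberField.Units.dirichletUnitTheorem MeasureTheory Set Filter Complex
open scoped nonZeroDivisors ENNReal

namespace Pool.Agent.H1.BH

open Pool.Agent.H25.HK Pool.Agent.H23.LB Pool.Agent.H23.LC Pool.Agent.H29.DW
open Pool.Agent.H28.RC (Rep ft idl)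
open Pool.Agent.H29.TC (dvs cq LC Gn MC)
open Pool.Agent.H29.BH
open Pool.Agent.H59.BH (mem_mul_of card_places mult_le_two factor_le geo tsum_pi_prod)

section

variable {K : Type} [Field K] [NumberField K]

open scoped Classical in
theorem pint_mono {ι : Type} [Fintype ι] (M : ι → FI K) (T : Set ℝ)
    {Φ Ψ : FI K → (InfinitePlace K → ℝ) → ℝ≥0∞}
    (h : ∀ c y, Φ (M c) y ≤ Ψ (M c) y) : pint M T Φ ≤ pint M T Ψ := by
  unfold pint
  refine Finset.sum_le_sum fun c _ => ?_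
  refine lintegral_mono fun z => ?_
  exact lintegral_mono fun τ => h c _

open scoped Classical in
theorem pint_const_mul {ι : Type} [Fintype ι] (M : ι → FI K) (T : Set ℝ) (a : ℝ≥0∞)
    (ha : a ≠ ⊤) (Φ : FI K → (InfinitePlace K → ℝ) → ℝ≥0∞) :
    pint M T (fun L y => a * Φ L y) = a * pint M T Φ := by
  unfold pint
  rw [Finset.mul_sum]
  refine Finset.sum_congr rfl fun c _ => ?_
  rw [← lintegral_const_mul' _ _ ha]
  refine lintegral_congr fun z => ?_
  rw [← lintegral_const_mul' _ _ ha]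

open scoped Classical in
theorem pint_tsum {β : Type} [Countable β] {ι : Type} [Fintype ι] (M : ι → FI K) (T : Set ℝ)
    (Φ : β → FI K → (InfinitePlace K → ℝ) → ℝ≥0∞)
    (hΦ : ∀ i c, Measurable (fun q : ℝ × logSpace K => Φ i (M c) (yM K (M c) q.1 q.2))) :
    pint M T (fun L y => ∑' i, Φ i L y) = ∑' i, pint M T (Φ i) := by
  unfold pint
  rw [Summable.tsum_finsetSum (fun _ _ => ENNReal.summable)]
  refine Finset.sum_congr rfl fun c _ => ?_
  have h1 : ∀ z : logSpace K, ∫⁻ τ in T, ∑' i, Φ i (M c) (yM K (M c) τ z) =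
      ∑' i, ∫⁻ τ in T, Φ i (M c) (yM K (M c) τ z) := by
    intro z
    refine lintegral_tsum fun i => ?_
    exact ((hΦ i c).comp (measurable_id.prodMk measurable_const)).aemeasurable
  simp only [h1]
  refine lintegral_tsum fun i => ?_
  exact (Measurable.lintegral_prod_left' (hΦ i c)).aemeasurable

/-- the weight of a dyadic box -/
noncomputable def Wj (j : InfinitePlace K → ℕ) : ℝ :=
  ∏ v : InfinitePlace K, (((1 / 2 : ℝ) ^ (j v) / 2) ^ v.mult) ^ (-(3 / 4) : ℝ)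

theorem Wj_nonneg (j : InfinitePlace K → ℕ) : 0 ≤ Wj j :=
  Finset.prod_nonneg fun v _ => by positivity

open scoped Classical in
/-- every point lies in a dyadic box -/
theorem box_le (L : FI K) (y : InfinitePlace K → ℝ) :
    ∑' h : K, (if h ∈ L ∧ h ≠ 0 ∧ ∀ v, ‖sy y h v‖ ≤ 1 then
      ENNReal.ofReal (nv y h ^ (-(3 / 4) : ℝ)) else 0) ≤
    ∑' j : InfinitePlace K → ℕ, ENNReal.ofReal (Wj j) *
      cn L y (fun v => (1 / 2 : ℝ) ^ (j v)) := by
  have key : ∀ h : K, (if h ∈ L ∧ h ≠ 0 ∧ ∀ v, ‖sy y h v‖ ≤ 1 then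
      ENNReal.ofReal (nv y h ^ (-(3 / 4) : ℝ)) else 0) ≤
      ∑' j : InfinitePlace K → ℕ, ENNReal.ofReal (Wj j) *
        (if h ∈ L ∧ h ≠ 0 ∧ ∀ v, ‖sy y h v‖ ≤ (1 / 2 : ℝ) ^ (j v) then 1 else 0) := by
    intro h
    by_cases hh : h ∈ L ∧ h ≠ 0 ∧ ∀ v, ‖sy y h v‖ ≤ 1
    · rw [if_pos hh]
      obtain ⟨hL, h0, h1⟩ := hh
      have hpos : ∀ v, 0 < ‖sy y h v‖ := by
        intro v
        unfold sy
        rw [norm_pos_iff]
        refine mul_ne_zero ?_ ?_
        · exact (map_ne_zero _).2 h0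
        · exact_mod_cast (Real.exp_pos _).ne'
      have h2 : ∀ v, ∃ m : ℕ, (1 / 2 : ℝ) ^ (m + 1) < ‖sy y h v‖ ∧ ‖sy y h v‖ ≤ (1 / 2 : ℝ) ^ m :=
        fun v => exists_nat_pow_near_of_lt_one (hpos v) (h1 v) (by norm_num) (by norm_num)
      choose j hj using h2
      refine le_trans ?_ (ENNReal.le_tsum j)
      rw [if_pos ⟨hL, h0, fun v => (hj v).2⟩, mul_one]
      refine ENNReal.ofReal_le_ofReal ?_
      unfold Wj nv
      rw [← Real.finsetProd_rpow _ _ (fun v _ => by positivity)]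
      refine Finset.prod_le_prod (fun v _ => by positivity) fun v _ => ?_
      refine Real.rpow_le_rpow_of_nonpos (by positivity) ?_ (by norm_num)
      refine pow_le_pow_left₀ (by positivity) ?_ _
      have := (hj v).1.le
      rw [pow_succ] at this
      linarith
    · rw [if_neg hh]
      exact zero_le
  calc _ ≤ ∑' h : K, ∑' j : InfinitePlace K → ℕ, ENNReal.ofReal (Wj j) *
        (if h ∈ L ∧ h ≠ 0 ∧ ∀ v, ‖sy y h v‖ ≤ (1 / 2 : ℝ) ^ (j v) then 1 else 0) :=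
        ENNReal.tsum_le_tsum key
    _ = ∑' j : InfinitePlace K → ℕ, ∑' h : K, ENNReal.ofReal (Wj j) *
        (if h ∈ L ∧ h ≠ 0 ∧ ∀ v, ‖sy y h v‖ ≤ (1 / 2 : ℝ) ^ (j v) then 1 else 0) :=
        ENNReal.tsum_comm
    _ = _ := by
        refine tsum_congr fun j => ?_
        rw [ENNReal.tsum_mul_left]
        rfl

open scoped Classical in
/-- the weights as a sum over the divisors -/
theorem gs_le (hDF : Pool.Agent.H29.TC.T_DF) (f : Ideal (𝓞 K)) (hf : f ≠ ⊥) (L : FI K)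
    (hL : L ≠ 0) (y : InfinitePlace K → ℝ) :
    gs f L y ≤ ∑' e : {e // e ∈ dvs K f}, ∑' j : InfinitePlace K → ℕ,
      (ENNReal.ofReal (Nf K e.1) * ENNReal.ofReal (Wj j)) *
        cn ((e.1 : FI K) * L) y (fun v => (1 / 2 : ℝ) ^ (j v)) := by
  have hmem := hDF K f hf
  have hpt : ∀ h : K, (if h ∈ L ∧ h ≠ 0 ∧ ∀ v, ‖sy y h v‖ ≤ 1 then
      ENNReal.ofReal (wf K f L h * nv y h ^ (-(3 / 4) : ℝ)) else 0) ≤
      ∑' e : {e // e ∈ dvs K f}, ENNReal.ofReal (Nf K e.1) *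
        (if h ∈ (e.1 : FI K) * L ∧ h ≠ 0 ∧ ∀ v, ‖sy y h v‖ ≤ 1 then
          ENNReal.ofReal (nv y h ^ (-(3 / 4) : ℝ)) else 0) := by
    intro h
    by_cases hh : h ∈ L ∧ h ≠ 0 ∧ ∀ v, ‖sy y h v‖ ≤ 1
    · rw [if_pos hh]
      obtain ⟨hL', h0, h1⟩ := hh
      have he : f ⊔ idl K L h ∈ dvs K f := (hmem _).2 le_sup_left
      have h2 : h ∈ ((f ⊔ idl K L h : Ideal (𝓞 K)) : FI K) * L :=
        mem_mul_of L hL _ hL' le_sup_right
      refine le_trans (le_of_eq ?_) (ENNReal.le_tsum ⟨f ⊔ idl K L h, he⟩)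
      rw [if_pos ⟨h2, h0, h1⟩]
      unfold wf
      rw [ENNReal.ofReal_mul]
      unfold Nf
      exact Nat.cast_nonneg _
    · rw [if_neg hh]
      exact zero_le
  unfold gs
  refine (ENNReal.tsum_le_tsum hpt).trans ?_
  rw [ENNReal.tsum_comm]
  refine ENNReal.tsum_le_tsum fun e => ?_
  rw [ENNReal.tsum_mul_left]
  refine (mul_le_mul_right (box_le ((e.1 : FI K) * L) y) _).trans (le_of_eq ?_)
  rw [← ENNReal.tsum_mul_left]
  refine tsum_congr fun j => ?_
  rw [mul_assoc]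

/-- one box -/
theorem box_term (n : ℕ) (κ C X N : ℝ) (hκ : 0 < κ) (hC : 1 ≤ C) (hX : 0 < X) (hN : 1 ≤ N)
    (j : InfinitePlace K → ℕ) :
    N * Wj j * (C * ((∏ v : InfinitePlace K, ((1 / 2 : ℝ) ^ (j v)) ^ v.mult) * X / N) ^ (1 + κ)) ≤
      C * X ^ (1 + κ) * ∏ v : InfinitePlace K, (4 * ((1 / 2 : ℝ) ^ (1 / 4 : ℝ)) ^ (j v)) := by
  have hN0 : 0 < N := by linarith
  have hκ1 : 0 ≤ 1 + κ := by linarith
  have hP0 : 0 ≤ ∏ v : InfinitePlace K, ((1 / 2 : ℝ) ^ (j v)) ^ v.mult :=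
    Finset.prod_nonneg fun v _ => by positivity
  have h1 : ((∏ v : InfinitePlace K, ((1 / 2 : ℝ) ^ (j v)) ^ v.mult) * X / N) ^ (1 + κ) ≤
      (∏ v : InfinitePlace K, ((1 / 2 : ℝ) ^ (j v)) ^ v.mult) * X ^ (1 + κ) / N := by
    rw [Real.div_rpow (by positivity) hN0.le, Real.mul_rpow hP0 hX.le]
    have hPle : (∏ v : InfinitePlace K, ((1 / 2 : ℝ) ^ (j v)) ^ v.mult) ≤ 1 := by
      refine Finset.prod_le_one (fun v _ => by positivity) fun v _ => ?_
      exact pow_le_one₀ (by positivity) (pow_le_one₀ (by norm_num) (by norm_num))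
    have h2 : (∏ v : InfinitePlace K, ((1 / 2 : ℝ) ^ (j v)) ^ v.mult) ^ (1 + κ) ≤
        ∏ v : InfinitePlace K, ((1 / 2 : ℝ) ^ (j v)) ^ v.mult := by
      have hpos : 0 < ∏ v : InfinitePlace K, ((1 / 2 : ℝ) ^ (j v)) ^ v.mult :=
        Finset.prod_pos fun v _ => by positivity
      calc _ ≤ (∏ v : InfinitePlace K, ((1 / 2 : ℝ) ^ (j v)) ^ v.mult) ^ (1 : ℝ) :=
            Real.rpow_le_rpow_of_exponent_ge hpos hPle (by linarith)
        _ = _ := Real.rpow_one _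
    have h3 : N ≤ N ^ (1 + κ) := by
      calc N = N ^ (1 : ℝ) := (Real.rpow_one N).symm
        _ ≤ N ^ (1 + κ) := Real.rpow_le_rpow_of_exponent_le hN (by linarith)
    apply div_le_div₀ (by positivity) _ hN0 h3
    exact mul_le_mul_of_nonneg_right h2 (by positivity)
  have hW := Wj_nonneg (K := K) j
  have h4 : Wj j * (∏ v : InfinitePlace K, ((1 / 2 : ℝ) ^ (j v)) ^ v.mult) ≤
      ∏ v : InfinitePlace K, (4 * ((1 / 2 : ℝ) ^ (1 / 4 : ℝ)) ^ (j v)) := by
    unfold Wj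
    rw [← Finset.prod_mul_distrib]
    refine Finset.prod_le_prod (fun v _ => by positivity) fun v _ => ?_
    have h5 := factor_le (3 / 4) ((1 / 2 : ℝ) ^ (j v)) v.mult (by norm_num) (by norm_num)
      (by positivity) (pow_le_one₀ (by norm_num) (by norm_num)) mult_pos (mult_le_two v)
    rw [mul_comm]
    refine h5.trans (le_of_eq ?_)
    congr 1
    rw [← Real.rpow_natCast, ← Real.rpow_natCast, ← Real.rpow_mul (by norm_num),
      ← Real.rpow_mul (by norm_num)]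
    congr 1
    ring
  calc _ ≤ N * Wj j * (C * ((∏ v : InfinitePlace K, ((1 / 2 : ℝ) ^ (j v)) ^ v.mult) *
        X ^ (1 + κ) / N)) :=
        mul_le_mul_of_nonneg_left (mul_le_mul_of_nonneg_left h1 (by linarith)) (by positivity)
    _ = C * X ^ (1 + κ) * (Wj j * ∏ v : InfinitePlace K, ((1 / 2 : ℝ) ^ (j v)) ^ v.mult) := by
        field_simp
    _ ≤ _ := mul_le_mul_of_nonneg_left h4 (by positivity)

end

theorem pf_R_G1 (hC1 : R_C1) (hIF : R_IF) (hDF : Pool.Agent.H29.TC.T_DF) : R_G1 := by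
  classical
  intro n hn κ hκ hκ1
  obtain ⟨C, hC, hC1⟩ := hC1 n hn κ hκ hκ1
  have hρ1 : (1 / 2 : ℝ) ^ (1 / 4 : ℝ) < 1 :=
    Real.rpow_lt_one (by norm_num) (by norm_num) (by norm_num)
  have hρ0 : 0 ≤ (1 / 2 : ℝ) ^ (1 / 4 : ℝ) := by positivity
  set ρ : ℝ := (1 / 2 : ℝ) ^ (1 / 4 : ℝ) with hρ
  have h5 : 1 ≤ 4 / (1 - ρ) := by
    rw [le_div_iff₀ (by linarith)]
    linarith
  refine ⟨C * (4 / (1 - ρ)) ^ n, one_le_mul_of_one_le_of_one_le hC (one_le_pow₀ h5), ?_⟩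
  intro K _ _ hK f hf ι _ M hM τ₁
  have hmem := hDF K f hf
  have hbot : ∀ e, f ≤ e → e ≠ ⊥ := fun e he h => hf (le_bot_iff.1 (h ▸ he))
  have hNf : ∀ e : Ideal (𝓞 K), e ≠ ⊥ → 1 ≤ Nf K e := by
    intro e he
    unfold Nf
    have : 0 < Ideal.absNorm e := Nat.pos_of_ne_zero fun h => he (Ideal.absNorm_eq_zero_iff.1 h)
    exact_mod_cast this
  obtain ⟨-, -, hcn, hmul⟩ := hIF K f hf
  set X : ℝ := Real.exp (-τ₁) with hX
  have hX0 : 0 < X := Real.exp_pos _
  have hme : ∀ (e : Ideal (𝓞 K)) (R : InfinitePlace K → ℝ), e ≠ ⊥ → ∀ c : ι,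
      Measurable (fun q : ℝ × logSpace K => cn ((e : FI K) * M c) (yM K (M c) q.1 q.2) R) := by
    intro e R he c
    have h1 := hmul (fun L y => cn L y R) (e : FI K) (FractionalIdeal.coeIdeal_ne_zero.2 he)
      (hcn R)
    exact h1.meas (M c) (hM.1 c)
  -- one divisor
  have hdiv : ∀ e : {e // e ∈ dvs K f}, ∑' j : InfinitePlace K → ℕ,
      pint M (Icc τ₁ (τ₁ + 3)) (fun L y => (ENNReal.ofReal (Nf K e.1) * ENNReal.ofReal (Wj j)) *
        cn ((e.1 : FI K) * L) y (fun v => (1 / 2 : ℝ) ^ (j v))) ≤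
      ENNReal.ofReal (C * (4 / (1 - ρ)) ^ n * X ^ (1 + κ)) := by
    intro e
    have he : e.1 ≠ ⊥ := hbot e.1 ((hmem e.1).1 e.2)
    have heN := hNf e.1 he
    have hterm : ∀ j : InfinitePlace K → ℕ,
        pint M (Icc τ₁ (τ₁ + 3)) (fun L y => (ENNReal.ofReal (Nf K e.1) * ENNReal.ofReal (Wj j)) *
          cn ((e.1 : FI K) * L) y (fun v => (1 / 2 : ℝ) ^ (j v))) ≤
        ENNReal.ofReal (C * X ^ (1 + κ)) *
          ∏ v : InfinitePlace K, ENNReal.ofReal (4 * ρ ^ (j v)) := by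
      intro j
      rw [pint_const_mul M _ _ (ENNReal.mul_ne_top ENNReal.ofReal_ne_top ENNReal.ofReal_ne_top)]
      have h1 := (hC1 K hK ι M hM τ₁).2 (e.1 : FI K) (fun v => (1 / 2 : ℝ) ^ (j v))
        (FractionalIdeal.coeIdeal_ne_zero.2 he) (fun v => by positivity)
      refine (mul_le_mul_right h1 _).trans ?_
      rw [← ENNReal.ofReal_mul (by linarith), ← ENNReal.ofReal_mul
        (mul_nonneg (by linarith) (Wj_nonneg j)),
        ← ENNReal.ofReal_prod_of_nonneg (fun v _ => by positivity),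
        ← ENNReal.ofReal_mul (by positivity)]
      refine ENNReal.ofReal_le_ofReal ?_
      rw [FractionalIdeal.coeIdeal_absNorm]
      have h2 := box_term n κ C X (Nf K e.1) hκ hC hX0 heN j
      have h3 : (((Ideal.absNorm e.1 : ℕ) : ℚ) : ℝ) = Nf K e.1 := by
        unfold Nf
        push_cast
        rfl
      rw [h3]
      exact h2
    calc _ ≤ ∑' j : InfinitePlace K → ℕ, ENNReal.ofReal (C * X ^ (1 + κ)) *
          ∏ v : InfinitePlace K, ENNReal.ofReal (4 * ρ ^ (j v)) := ENNReal.tsum_le_tsum hterm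
      _ = ENNReal.ofReal (C * X ^ (1 + κ)) *
          ∏ _v : InfinitePlace K, ENNReal.ofReal (4 / (1 - ρ)) := by
          rw [ENNReal.tsum_mul_left, tsum_pi_prod (fun _ m => ENNReal.ofReal (4 * ρ ^ m))]
          simp only [geo ρ hρ0 hρ1]
      _ ≤ _ := by
          rw [Finset.prod_const, Finset.card_univ, ← ENNReal.ofReal_pow (by linarith),
            ← ENNReal.ofReal_mul (by positivity)]
          refine ENNReal.ofReal_le_ofReal ?_
          have h6 : (4 / (1 - ρ)) ^ Fintype.card (InfinitePlace K) ≤ (4 / (1 - ρ)) ^ n :=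
            pow_le_pow_right₀ h5 (card_places n hK)
          have h7 : 0 ≤ C * X ^ (1 + κ) := by positivity
          nlinarith [mul_le_mul_of_nonneg_left h6 h7]
  calc pint M (Icc τ₁ (τ₁ + 3)) (fun L y => gs f L y)
      ≤ pint M (Icc τ₁ (τ₁ + 3)) (fun L y => ∑' e : {e // e ∈ dvs K f},
          ∑' j : InfinitePlace K → ℕ, (ENNReal.ofReal (Nf K e.1) * ENNReal.ofReal (Wj j)) *
            cn ((e.1 : FI K) * L) y (fun v => (1 / 2 : ℝ) ^ (j v))) :=
        pint_mono M _ fun c y => gs_le hDF f hf (M c) (hM.1 c) y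
    _ = ∑' e : {e // e ∈ dvs K f}, ∑' j : InfinitePlace K → ℕ,
        pint M (Icc τ₁ (τ₁ + 3)) (fun L y =>
          (ENNReal.ofReal (Nf K e.1) * ENNReal.ofReal (Wj j)) *
            cn ((e.1 : FI K) * L) y (fun v => (1 / 2 : ℝ) ^ (j v))) := by
        have hmm : ∀ (e : {e // e ∈ dvs K f}) (j : InfinitePlace K → ℕ) (c : ι),
            Measurable (fun q : ℝ × logSpace K =>
              (ENNReal.ofReal (Nf K e.1) * ENNReal.ofReal (Wj j)) *
                cn ((e.1 : FI K) * M c) (yM K (M c) q.1 q.2) (fun v => (1 / 2 : ℝ) ^ (j v))) :=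
          fun e j c => (hme e.1 _ (hbot e.1 ((hmem e.1).1 e.2)) c).const_mul _
        rw [pint_tsum M _ (fun (e : {e // e ∈ dvs K f}) L y => ∑' j : InfinitePlace K → ℕ,
          (ENNReal.ofReal (Nf K e.1) * ENNReal.ofReal (Wj j)) *
            cn ((e.1 : FI K) * L) y (fun v => (1 / 2 : ℝ) ^ (j v)))
          (fun e c => Measurable.ennreal_tsum fun j => hmm e j c)]
        refine tsum_congr fun e => ?_
        exact pint_tsum M _ (fun (j : InfinitePlace K → ℕ) L y =>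
          (ENNReal.ofReal (Nf K e.1) * ENNReal.ofReal (Wj j)) *
            cn ((e.1 : FI K) * L) y (fun v => (1 / 2 : ℝ) ^ (j v))) (fun j c => hmm e j c)
    _ ≤ ∑' _e : {e // e ∈ dvs K f}, ENNReal.ofReal (C * (4 / (1 - ρ)) ^ n * X ^ (1 + κ)) :=
        ENNReal.tsum_le_tsum hdiv
    _ = ENNReal.ofReal (C * (4 / (1 - ρ)) ^ n * (dvs K f).card * X ^ (1 + κ)) := by
        rw [tsum_fintype, Finset.sum_const, Finset.card_univ, Fintype.card_coe, nsmul_eq_mul,
          ← ENNReal.ofReal_natCast, ← ENNReal.ofReal_mul (Nat.cast_nonneg _)]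
        congr 1
        ring

end Pool.Agent.H1.BH
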